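import Pool.Agent.H56.PP.GmAct
import Pool.Agent.H65.AF.AAct

/-!
helper56 (project MP_28250c_PP, block G, G5): the cyclic filtered module.  If `f` is a vector such that `J (P f) = 0` implies `P f = 0` for all operators
`P` of degree `a < T`, then the subspaces `M' a = J^(T-a) (Op a) f` (`a ≤ T`) form a filtered module (`Slow`) of length `T`, in which a
function `P` of degree `a` acts on `f' = J^T f` by `J^(T-a) (hact a P) f`.
-/

set_option autoImplicit false

namespace PPh

open ACpFrege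

variable {K : Type} [Field K] {E : Type} [AddCommGroup E] [Module K E] {n : ℕ}

/-- The vectors `P f`, `P` an operator of degree `a`. -/
noncomputable def Gm.N (g : Gm K E n) (f : E) (a : ℕ) : Submodule K E := (g.Op a).map (LinearMap.applyₗ f)

theorem Gm.mem_N (g : Gm K E n) (f : E) (a : ℕ) (x : E) : x ∈ g.N f a ↔ ∃ P ∈ g.Op a, P f = x := by
  unfold Gm.N
  rw [Submodule.mem_map]
  rfl

theorem Gm.N_J (g : Gm K E n) {f : E} {a : ℕ} {x : E} (hx : x ∈ g.N f a) : g.J x ∈ g.N f (a + 1) := by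
  obtain ⟨P, hP, rfl⟩ := (g.mem_N f a x).mp hx
  exact (g.mem_N f (a + 1) _).mpr ⟨g.J * P, g.Op_J hP, rfl⟩

theorem Gm.N_X (g : Gm K E n) {f : E} {a : ℕ} {x : E} (hx : x ∈ g.N f a) (i : Fin n) : g.X i x ∈ g.N f (a + 1) := by
  obtain ⟨P, hP, rfl⟩ := (g.mem_N f a x).mp hx
  exact (g.mem_N f (a + 1) _).mpr ⟨g.X i * P, g.Op_X hP i, rfl⟩

theorem Gm.N_Jp (g : Gm K E n) {f : E} {a : ℕ} {x : E} (hx : x ∈ g.N f a) (b : ℕ) : (g.J ^ b) x ∈ g.N f (a + b) := by
  induction b with
  | zero => simpa using hx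
  | succ b ih =>
    rw [pow_succ', Module.End.mul_apply]
    exact g.N_J ih

theorem Gm.N_self (g : Gm K E n) (f : E) : f ∈ g.N f 0 := (g.mem_N f 0 f).mpr ⟨g.J ^ 0, g.Op_pow 0, by simp⟩

/-- The operators of the cyclic module. -/
private theorem Cyc_lam (g : Gm K E n) (T : ℕ) (f : E) (hinj : ∀ a < T, ∀ P ∈ g.Op a, g.J (P f) = 0 → P f = 0) :
    ∃ lam : E →ₗ[K] E, 1 ≤ T → ∀ x ∈ g.N f (T - 1), lam (g.J x) = x := by
  by_cases hT : 1 ≤ T
  · have hker : LinearMap.ker (g.J.comp (g.N f (T - 1)).subtype) = ⊥ := by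
      rw [LinearMap.ker_eq_bot']
      rintro ⟨x, hx⟩ h
      obtain ⟨P, hP, rfl⟩ := (g.mem_N f (T - 1) x).mp hx
      exact Subtype.ext (hinj (T - 1) (by omega) P hP h)
    obtain ⟨lam, hlam⟩ := LinearMap.exists_leftInverse_of_injective _ hker
    refine ⟨(g.N f (T - 1)).subtype.comp lam, fun _ x hx => ?_⟩
    have h := LinearMap.congr_fun hlam ⟨x, hx⟩
    exact congrArg Subtype.val h
  · exact ⟨0, fun h => absurd h hT⟩

/-- The cyclic module. -/
theorem cyclic (g : Gm K E n) (T : ℕ) (f : E) (hinj : ∀ a < T, ∀ P ∈ g.Op a, g.J (P f) = 0 → P f = 0) (hf : f ≠ 0) :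
    ∃ s : Slow K E n, s.L = T ∧ (g.J ^ T) f ∈ s.M 0 ∧ (g.J ^ T) f ≠ 0 ∧
      (∀ a ≤ T, ∀ P ∈ Dg K n a, s.act P ((g.J ^ T) f) = (g.J ^ (T - a)) (g.hact a P f)) ∧
      (∀ l : List (Fin n), (∀ m, (l.map fun i => g.X i m).sum = g.J m) → ∀ j < T, ∀ m ∈ s.M j,
        (l.map fun i => s.X i m).sum = m) ∧
      (∀ i i' : Fin n, (∀ m, g.X i (g.X i' m) = 0) → ∀ j, j + 2 ≤ T → ∀ m ∈ s.M j, s.X i (s.X i' m) = 0) := by
  classical
  obtain ⟨lam, hlam⟩ := Cyc_lam g T f hinj
  -- the key: the new operator on `J^(T-a) x`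
  have key : ∀ (i : Fin n) (a : ℕ), a + 1 ≤ T → ∀ x ∈ g.N f a, g.X i (lam ((g.J ^ (T - a)) x)) = (g.J ^ (T - (a + 1))) (g.X i x) := by
    intro i a ha x hx
    have h1 : T - a = (T - (a + 1)) + 1 := by omega
    have h2 : (g.J ^ (T - (a + 1))) x ∈ g.N f (T - 1) := by
      have h := g.N_Jp hx (T - (a + 1))
      rwa [show a + (T - (a + 1)) = T - 1 by omega] at h
    rw [h1, pow_succ', Module.End.mul_apply, hlam (by omega) _ h2, ← Module.End.mul_apply, ← g.JpX]
    rfl
  let s : Slow K E n :=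
    { X := fun i => (g.X i).comp lam
      M := fun a => (g.N f a).map (g.J ^ (T - a))
      L := T
      up := by
        rintro j hj _ ⟨x, hx, rfl⟩
        refine ⟨g.J x, g.N_J hx, ?_⟩
        rw [← Module.End.mul_apply, ← pow_succ, show T - (j + 1) + 1 = T - j by omega]
      map := by
        rintro i j hj _ ⟨x, hx, rfl⟩
        refine ⟨g.X i x, g.N_X hx i, ?_⟩
        exact (key i j hj x hx).symm
      idem := by
        rintro i j hj _ ⟨x, hx, rfl⟩
        show g.X i (lam (g.X i (lam ((g.J ^ (T - j)) x)))) = g.X i (lam ((g.J ^ (T - j)) x))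
        rw [key i j (by omega) x hx, key i (j + 1) (by omega) _ (g.N_X hx i), g.idem, ← Module.End.mul_apply, ← pow_succ,
          show T - (j + 1 + 1) + 1 = T - (j + 1) by omega]
      comm := by
        rintro i i' j hj _ ⟨x, hx, rfl⟩
        show g.X i (lam (g.X i' (lam ((g.J ^ (T - j)) x)))) = g.X i' (lam (g.X i (lam ((g.J ^ (T - j)) x))))
        rw [key i' j (by omega) x hx, key i j (by omega) x hx, key i (j + 1) (by omega) _ (g.N_X hx i'),
          key i' (j + 1) (by omega) _ (g.N_X hx i), g.comm] }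
  have hsX : ∀ (i : Fin n) (a : ℕ), a + 1 ≤ T → ∀ x ∈ g.N f a, s.X i ((g.J ^ (T - a)) x) = (g.J ^ (T - (a + 1))) (g.X i x) := key
  have hM0 : (g.J ^ T) f ∈ s.M 0 := ⟨f, g.N_self f, by rw [Nat.sub_zero]⟩
  -- the powers of `J` do not kill `f`
  have hpow : ∀ b ≤ T, (g.J ^ b) f ≠ 0 := by
    intro b
    induction b with
    | zero => intro _; simpa using hf
    | succ b ih =>
      intro hb h
      rw [pow_succ', Module.End.mul_apply] at h
      exact ih (by omega) (hinj b (by omega) (g.J ^ b) (g.Op_pow b) h)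
  -- the action of monomials
  have hXS : ∀ S : Finset (Fin n), S.card ≤ T → s.XS S ((g.J ^ T) f) = (g.J ^ (T - S.card)) (g.XS S f) := by
    intro S
    induction S using Finset.induction_on with
    | empty =>
      intro _
      rw [Finset.card_empty, Nat.sub_zero, g.XS_empty]
      unfold Slow.XS
      rw [Finset.sort_empty]
      rfl
    | insert i S hi ih =>
      intro hS
      rw [Finset.card_insert_of_notMem hi] at hS
      have h1 := X_XS s hM0 i S (by show 0 + 1 + S.card ≤ T; omega)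
      rw [← h1, ih (by omega), Finset.card_insert_of_notMem hi, hsX i S.card (by omega), g.XS_insert hi]
      · rfl
      · refine (g.mem_N f _ _).mpr ⟨g.XS S, ?_, rfl⟩
        have h := g.Op_mono (a := S.card) (S := S) le_rfl
        rwa [Nat.sub_self, pow_zero, one_mul] at h
  refine ⟨s, rfl, hM0, hpow T le_rfl, ?_, ?_, ?_⟩
  · intro a ha P hP
    unfold Dg at hP
    induction hP using Submodule.span_induction with
    | mem x hx =>
      obtain ⟨S, hS, rfl⟩ := hx
      rw [act_mono, hXS S (hS.trans ha), g.hact_mono hS, Module.End.mul_apply,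
        show T - S.card = (T - a) + (a - S.card) by omega, pow_add, Module.End.mul_apply]
    | zero => rw [act_zero, g.hact_zero]; simp
    | add x y _ _ hx hy => rw [act_add, g.hact_add, LinearMap.add_apply, LinearMap.add_apply, map_add, hx, hy]
    | smul c x _ hx => rw [act_smul, g.hact_smul, LinearMap.smul_apply, LinearMap.smul_apply, map_smul, hx]
  · rintro l hl j hj _ ⟨x, hx, rfl⟩
    have h1 : (l.map fun i => s.X i ((g.J ^ (T - j)) x)) = l.map fun i => (g.J ^ (T - (j + 1))) (g.X i x) := by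
      refine List.map_congr_left fun i _ => ?_
      exact hsX i j hj x hx
    have h2 : (l.map fun i => (g.J ^ (T - (j + 1))) (g.X i x)).sum = (g.J ^ (T - (j + 1))) ((l.map fun i => g.X i x).sum) := by
      rw [map_list_sum, List.map_map]
      rfl
    rw [h1, h2, hl, ← Module.End.mul_apply, ← pow_succ, show T - (j + 1) + 1 = T - j by omega]
  · rintro i i' h j hj _ ⟨x, hx, rfl⟩
    rw [hsX i' j (by omega) x hx, hsX i (j + 1) (by omega) _ (g.N_X hx i'), h, map_zero]

end PPh
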