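import Pool.Agent.H94.PP.Defs
import Pool.Agent.H65.AF.ACube

/-!
helper56 (project MP_28250c_PP, block G): the action of functions on the cube on a graded module.
-/

set_option autoImplicit false

namespace PPh

open ACpFrege

variable {K : Type} [Field K] {E : Type} [AddCommGroup E] [Module K E] {n : ℕ}

theorem Gm.JX (g : Gm K E n) (i : Fin n) : g.J * g.X i = g.X i * g.J := LinearMap.ext fun m => g.commJ i m

theorem Gm.XX (g : Gm K E n) (i i' : Fin n) : g.X i * g.X i' = g.X i' * g.X i := LinearMap.ext fun m => g.comm i i' m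

theorem Gm.Xid (g : Gm K E n) (i : Fin n) : g.X i * g.X i = g.J * g.X i := LinearMap.ext fun m => g.idem i m

theorem Gm.XS_empty (g : Gm K E n) : g.XS ∅ = 1 := by
  unfold Gm.XS
  rw [Finset.sort_empty]
  rfl

theorem Gm.XS_single (g : Gm K E n) (i : Fin n) : g.XS {i} = g.X i := by
  unfold Gm.XS
  rw [Finset.sort_singleton]
  simp

private theorem GmAct_comm (g : Gm K E n) (Q : E →ₗ[K] E) (h : ∀ i, Q * g.X i = g.X i * Q) (l : List (Fin n)) :
    Q * (l.map g.X).prod = (l.map g.X).prod * Q := by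
  induction l with
  | nil => simp
  | cons a l ih => rw [List.map_cons, List.prod_cons, ← mul_assoc, h, mul_assoc, ih, mul_assoc]

private theorem GmAct_perm (g : Gm K E n) {l l' : List (Fin n)} (hp : l.Perm l') : (l.map g.X).prod = (l'.map g.X).prod := by
  induction hp with
  | nil => rfl
  | cons a hp ih => rw [List.map_cons, List.prod_cons, List.map_cons, List.prod_cons, ih]
  | swap a b l =>
    simp only [List.map_cons, List.prod_cons]
    rw [← mul_assoc, ← mul_assoc, g.XX]
  | trans _ _ ih ih' => rw [ih, ih']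

theorem Gm.JXS (g : Gm K E n) (S : Finset (Fin n)) : g.J * g.XS S = g.XS S * g.J := GmAct_comm g g.J g.JX _

theorem Gm.XXS (g : Gm K E n) (i : Fin n) (S : Finset (Fin n)) : g.X i * g.XS S = g.XS S * g.X i :=
  GmAct_comm g (g.X i) (g.XX i) _

theorem Gm.JpXS (g : Gm K E n) (a : ℕ) (S : Finset (Fin n)) : g.J ^ a * g.XS S = g.XS S * g.J ^ a := by
  have h : Commute g.J (g.XS S) := g.JXS S
  exact (h.pow_left a).eq

theorem Gm.JpX (g : Gm K E n) (a : ℕ) (i : Fin n) : g.J ^ a * g.X i = g.X i * g.J ^ a := by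
  have h : Commute g.J (g.X i) := g.JX i
  exact (h.pow_left a).eq

theorem Gm.XS_insert (g : Gm K E n) {i : Fin n} {S : Finset (Fin n)} (hi : i ∉ S) : g.XS (insert i S) = g.X i * g.XS S := by
  have hp : (i :: S.sort (· ≤ ·)).Perm ((insert i S).sort (· ≤ ·)) := by
    rw [List.perm_ext_iff_of_nodup]
    · intro a
      rw [List.mem_cons, Finset.mem_sort, Finset.mem_sort, Finset.mem_insert]
    · rw [List.nodup_cons]
      exact ⟨by rw [Finset.mem_sort]; exact hi, Finset.sort_nodup _ _⟩
    · exact Finset.sort_nodup _ _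
  have h := GmAct_perm g hp
  rw [List.map_cons, List.prod_cons] at h
  exact h.symm

theorem Gm.XS_mem (g : Gm K E n) {i : Fin n} {S : Finset (Fin n)} (hi : i ∈ S) : g.X i * g.XS S = g.J * g.XS S := by
  rw [← Finset.insert_erase hi, g.XS_insert (Finset.notMem_erase i S), ← mul_assoc, ← mul_assoc, g.Xid]

theorem Gm.XS_mul (g : Gm K E n) (S T : Finset (Fin n)) : g.XS S * g.XS T = g.J ^ (S ∩ T).card * g.XS (S ∪ T) := by
  classical
  induction S using Finset.induction_on with
  | empty => rw [g.XS_empty, one_mul, Finset.empty_inter, Finset.card_empty, pow_zero, one_mul, Finset.empty_union]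
  | insert i S hi ih =>
    rw [g.XS_insert hi, mul_assoc, ih, ← mul_assoc, ← g.JpX, mul_assoc, Finset.insert_union]
    by_cases hT : i ∈ T
    · have h1 : insert i (S ∪ T) = S ∪ T := Finset.insert_eq_of_mem (Finset.mem_union_right _ hT)
      have h2 : (insert i S ∩ T).card = (S ∩ T).card + 1 := by
        rw [Finset.insert_inter_of_mem hT, Finset.card_insert_of_notMem]
        intro h
        exact hi (Finset.mem_inter.mp h).1
      rw [h1, h2, g.XS_mem (Finset.mem_union_right _ hT), pow_succ, mul_assoc]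
    · have h1 : i ∉ S ∪ T := by
        rw [Finset.mem_union]
        tauto
      rw [Finset.insert_inter_of_notMem hT, g.XS_insert h1]

/-! ### The action -/

theorem Gm.hact_add (g : Gm K E n) (a : ℕ) (P Q : Pt n → K) : g.hact a (P + Q) = g.hact a P + g.hact a Q := by
  unfold Gm.hact
  rw [← Finset.sum_add_distrib]
  refine Finset.sum_congr rfl fun S _ => ?_
  split_ifs
  · rw [cf_add, add_smul]
  · rw [add_zero]

theorem Gm.hact_smul (g : Gm K E n) (a : ℕ) (c : K) (P : Pt n → K) : g.hact a (c • P) = c • g.hact a P := by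
  unfold Gm.hact
  rw [Finset.smul_sum]
  refine Finset.sum_congr rfl fun S _ => ?_
  split_ifs
  · rw [cf_smul, mul_smul]
  · rw [smul_zero]

theorem Gm.hact_zero (g : Gm K E n) (a : ℕ) : g.hact a 0 = 0 := by
  have h : (0 : Pt n → K) = (0 : K) • (0 : Pt n → K) := by rw [zero_smul]
  rw [h, g.hact_smul, zero_smul]

theorem Gm.hact_neg (g : Gm K E n) (a : ℕ) (P : Pt n → K) : g.hact a (-P) = -g.hact a P := by
  have h : -P = (-1 : K) • P := by rw [neg_one_smul]
  rw [h, g.hact_smul, neg_one_smul]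

theorem Gm.hact_sub (g : Gm K E n) (a : ℕ) (P Q : Pt n → K) : g.hact a (P - Q) = g.hact a P - g.hact a Q := by
  rw [sub_eq_add_neg, g.hact_add, g.hact_neg, ← sub_eq_add_neg]

theorem Gm.hact_sum (g : Gm K E n) (a : ℕ) {ι : Type} (J : Finset ι) (F : ι → Pt n → K) :
    g.hact a (∑ i ∈ J, F i) = ∑ i ∈ J, g.hact a (F i) := by
  classical
  induction J using Finset.induction_on with
  | empty => rw [Finset.sum_empty, Finset.sum_empty, g.hact_zero]
  | insert i J hi ih => rw [Finset.sum_insert hi, Finset.sum_insert hi, g.hact_add, ih]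

theorem Gm.hact_mono (g : Gm K E n) {a : ℕ} {S : Finset (Fin n)} (h : S.card ≤ a) :
    g.hact a (mono K S) = g.J ^ (a - S.card) * g.XS S := by
  unfold Gm.hact
  rw [Finset.sum_eq_single S]
  · rw [if_pos h, cf_mono, if_pos rfl, one_smul]
  · intro T _ hT
    rw [cf_mono, if_neg hT, zero_smul, ite_self]
  · intro h
    exact absurd (Finset.mem_univ S) h

theorem Gm.hact_one (g : Gm K E n) (a : ℕ) : g.hact a 1 = g.J ^ a := by
  rw [← mono_empty, g.hact_mono (by simp), g.XS_empty, mul_one, Finset.card_empty, Nat.sub_zero]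

theorem Gm.hact_var (g : Gm K E n) (i : Fin n) : g.hact 1 (mono K {i}) = g.X i := by
  rw [g.hact_mono (by simp), g.XS_single, Finset.card_singleton, Nat.sub_self, pow_zero, one_mul]

/-- Raising the degree. -/
theorem Gm.hact_up (g : Gm K E n) {a : ℕ} {P : Pt n → K} (hP : P ∈ Dg K n a) (b : ℕ) :
    g.hact (a + b) P = g.J ^ b * g.hact a P := by
  unfold Dg at hP
  induction hP using Submodule.span_induction with
  | mem x hx =>
    obtain ⟨S, hS, rfl⟩ := hx
    rw [g.hact_mono hS, g.hact_mono (hS.trans (Nat.le_add_right a b)), ← mul_assoc, ← pow_add]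
    congr 2
    omega
  | zero => rw [g.hact_zero, g.hact_zero, mul_zero]
  | add x y _ _ hx hy => rw [g.hact_add, g.hact_add, hx, hy, mul_add]
  | smul c x _ hx => rw [g.hact_smul, g.hact_smul, hx, mul_smul_comm]

theorem Gm.hact_up' (g : Gm K E n) {a b : ℕ} {P : Pt n → K} (hP : P ∈ Dg K n a) (h : a ≤ b) :
    g.hact b P = g.J ^ (b - a) * g.hact a P := by
  have h1 := g.hact_up hP (b - a)
  rwa [Nat.add_sub_cancel' h] at h1

/-- Products of functions act as compositions. -/
theorem Gm.hact_mul (g : Gm K E n) {a b : ℕ} {P Q : Pt n → K} (hP : P ∈ Dg K n a) (hQ : Q ∈ Dg K n b) :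
    g.hact (a + b) (P * Q) = g.hact a P * g.hact b Q := by
  unfold Dg at hP
  induction hP using Submodule.span_induction with
  | mem x hx =>
    obtain ⟨S, hS, rfl⟩ := hx
    unfold Dg at hQ
    induction hQ using Submodule.span_induction with
    | mem y hy =>
      obtain ⟨T, hT, rfl⟩ := hy
      have hc := Finset.card_union_add_card_inter S T
      rw [mono_mul, g.hact_mono (by omega), g.hact_mono hS, g.hact_mono hT, mul_assoc, ← mul_assoc (g.XS S), ← g.JpXS, mul_assoc,
        g.XS_mul, ← mul_assoc, ← mul_assoc, ← pow_add, ← pow_add]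
      congr 2
      omega
    | zero => rw [mul_zero, g.hact_zero, g.hact_zero, mul_zero]
    | add x y _ _ hx hy => rw [mul_add, g.hact_add, g.hact_add, hx, hy, mul_add]
    | smul c x _ hx => rw [mul_smul_comm, g.hact_smul, g.hact_smul, hx, mul_smul_comm]
  | zero => rw [zero_mul, g.hact_zero, g.hact_zero, zero_mul]
  | add x y _ _ hx hy => rw [add_mul, g.hact_add, g.hact_add, hx, hy, add_mul]
  | smul c x _ hx => rw [smul_mul_assoc, g.hact_smul, g.hact_smul, hx, smul_mul_assoc]

theorem Gm.hact_comm (g : Gm K E n) {a b : ℕ} {P Q : Pt n → K} (hP : P ∈ Dg K n a) (hQ : Q ∈ Dg K n b) :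
    g.hact a P * g.hact b Q = g.hact b Q * g.hact a P := by
  rw [← g.hact_mul hP hQ, ← g.hact_mul hQ hP, mul_comm, add_comm]

/-! ### Levels -/

theorem Gm.J_pow_mem (g : Gm K E n) {j : ℕ} {m : E} (hm : m ∈ g.M j) (a : ℕ) : (g.J ^ a) m ∈ g.M (j + a) := by
  induction a with
  | zero => simpa using hm
  | succ a ih =>
    rw [pow_succ', Module.End.mul_apply]
    exact g.mapJ _ _ ih

theorem Gm.XS_map (g : Gm K E n) {j : ℕ} {m : E} (hm : m ∈ g.M j) (S : Finset (Fin n)) : g.XS S m ∈ g.M (j + S.card) := by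
  classical
  induction S using Finset.induction_on with
  | empty => rw [g.XS_empty]; simpa using hm
  | insert i S hi ih =>
    rw [g.XS_insert hi, Module.End.mul_apply, Finset.card_insert_of_notMem hi, ← add_assoc]
    exact g.mapX _ _ _ ih

/-! ### Operators -/

theorem Gm.Op_mono (g : Gm K E n) {a : ℕ} {S : Finset (Fin n)} (h : S.card ≤ a) : g.J ^ (a - S.card) * g.XS S ∈ g.Op a :=
  Submodule.subset_span ⟨S, h, rfl⟩

theorem Gm.Op_pow (g : Gm K E n) (a : ℕ) : g.J ^ a ∈ g.Op a := by
  have h := g.Op_mono (a := a) (S := ∅) (by simp)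
  rwa [g.XS_empty, mul_one, Finset.card_empty, Nat.sub_zero] at h

theorem Gm.Op_J (g : Gm K E n) {a : ℕ} {P : E →ₗ[K] E} (hP : P ∈ g.Op a) : g.J * P ∈ g.Op (a + 1) := by
  unfold Gm.Op at hP
  induction hP using Submodule.span_induction with
  | mem x hx =>
    obtain ⟨S, hS, rfl⟩ := hx
    have h := g.Op_mono (a := a + 1) (S := S) (by omega)
    rw [← mul_assoc, ← pow_succ']
    rwa [show a + 1 - S.card = a - S.card + 1 by omega] at h
  | zero => rw [mul_zero]; exact Submodule.zero_mem _
  | add x y _ _ hx hy => rw [mul_add]; exact Submodule.add_mem _ hx hy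
  | smul c x _ hx => rw [mul_smul_comm]; exact Submodule.smul_mem _ _ hx

theorem Gm.Op_X (g : Gm K E n) {a : ℕ} {P : E →ₗ[K] E} (hP : P ∈ g.Op a) (i : Fin n) : g.X i * P ∈ g.Op (a + 1) := by
  classical
  unfold Gm.Op at hP
  induction hP using Submodule.span_induction with
  | mem x hx =>
    obtain ⟨S, hS, rfl⟩ := hx
    rw [← mul_assoc, ← g.JpX, mul_assoc]
    by_cases hi : i ∈ S
    · have h := g.Op_mono (a := a + 1) (S := S) (by omega)
      rw [g.XS_mem hi, ← mul_assoc, ← pow_succ]
      rwa [show a + 1 - S.card = a - S.card + 1 by omega] at h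
    · have h := g.Op_mono (a := a + 1) (S := insert i S) (by rw [Finset.card_insert_of_notMem hi]; omega)
      rw [← g.XS_insert hi]
      rwa [Finset.card_insert_of_notMem hi, show a + 1 - (S.card + 1) = a - S.card by omega] at h
  | zero => rw [mul_zero]; exact Submodule.zero_mem _
  | add x y _ _ hx hy => rw [mul_add]; exact Submodule.add_mem _ hx hy
  | smul c x _ hx => rw [mul_smul_comm]; exact Submodule.smul_mem _ _ hx

theorem Gm.hact_Op (g : Gm K E n) (a : ℕ) (P : Pt n → K) : g.hact a P ∈ g.Op a := by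
  unfold Gm.hact
  refine Submodule.sum_mem _ fun S _ => ?_
  split_ifs with h
  · exact Submodule.smul_mem _ _ (g.Op_mono h)
  · exact Submodule.zero_mem _

theorem Gm.Op_map (g : Gm K E n) {a j : ℕ} {P : E →ₗ[K] E} (hP : P ∈ g.Op a) {m : E} (hm : m ∈ g.M j) : P m ∈ g.M (j + a) := by
  unfold Gm.Op at hP
  induction hP using Submodule.span_induction with
  | mem x hx =>
    obtain ⟨S, hS, rfl⟩ := hx
    rw [Module.End.mul_apply]
    have h := g.J_pow_mem (g.XS_map hm S) (a - S.card)
    rwa [show j + S.card + (a - S.card) = j + a by omega] at h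
  | zero => exact Submodule.zero_mem _
  | add x y _ _ hx hy => exact Submodule.add_mem _ hx hy
  | smul c x _ hx => exact Submodule.smul_mem _ _ hx

theorem Gm.hact_map (g : Gm K E n) {a j : ℕ} (P : Pt n → K) {m : E} (hm : m ∈ g.M j) : g.hact a P m ∈ g.M (j + a) :=
  g.Op_map (g.hact_Op a P) hm

/-- Every operator of degree `a` is the action of a function of degree `a`. -/
theorem Gm.Op_eq (g : Gm K E n) {a : ℕ} {P : E →ₗ[K] E} (hP : P ∈ g.Op a) : ∃ F ∈ Dg K n a, P = g.hact a F := by
  unfold Gm.Op at hP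
  induction hP using Submodule.span_induction with
  | mem x hx =>
    obtain ⟨S, hS, rfl⟩ := hx
    exact ⟨mono K S, mono_mem S hS, (g.hact_mono hS).symm⟩
  | zero => exact ⟨0, Submodule.zero_mem _, (g.hact_zero a).symm⟩
  | add x y _ _ hx hy =>
    obtain ⟨F, hF, rfl⟩ := hx
    obtain ⟨G, hG, rfl⟩ := hy
    exact ⟨F + G, Submodule.add_mem _ hF hG, (g.hact_add a F G).symm⟩
  | smul c x _ hx =>
    obtain ⟨F, hF, rfl⟩ := hx
    exact ⟨c • F, Submodule.smul_mem _ _ hF, (g.hact_smul a c F).symm⟩

end PPh
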