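import Pool.Agent.H94.PP.V0

/-!
helper56 (project MP_28250c_PP, block V: V1 and V2).  V1: `J^|C| (ev T0)` is the sum of `ev T` over the matchings `T ⊇ T0` which match, besides `T0`,
exactly a given set `C` of free holes (free pigeons).  V2: `J^(p^l) = 0` for `n + p^l` pigeons and `n` holes.
-/

set_option autoImplicit false
open Finset

namespace PPh

variable {p m n : ℕ}

open Classical in
/-- The matchings containing `T0` which match, besides `T0`, exactly the holes in `C`. -/
noncomputable def extc (T0 : Finset (Fin m × Fin n)) (C : Finset (Fin n)) : Finset (Finset (Fin m × Fin n)) :=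
  univ.filter fun T => T0 ⊆ T ∧ IsM T ∧ (T \ T0).image Prod.snd = C

open Classical in
/-- The matchings containing `T0` which match, besides `T0`, exactly the pigeons in `A`. -/
noncomputable def extr (T0 : Finset (Fin m × Fin n)) (A : Finset (Fin m)) : Finset (Finset (Fin m × Fin n)) :=
  univ.filter fun T => T0 ⊆ T ∧ IsM T ∧ (T \ T0).image Prod.fst = A

theorem mem_extc {T0 T : Finset (Fin m × Fin n)} {C : Finset (Fin n)} :
    T ∈ extc T0 C ↔ T0 ⊆ T ∧ IsM T ∧ (T \ T0).image Prod.snd = C := by
  classical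
  simp only [extc, mem_filter, mem_univ, true_and]

theorem mem_extr {T0 T : Finset (Fin m × Fin n)} {A : Finset (Fin m)} :
    T ∈ extr T0 A ↔ T0 ⊆ T ∧ IsM T ∧ (T \ T0).image Prod.fst = A := by
  classical
  simp only [extr, mem_filter, mem_univ, true_and]

/-- A hole which is free in `T0` and not in `C` is free in the extensions. -/
theorem fh_extc {T0 T : Finset (Fin m × Fin n)} {C : Finset (Fin n)} (hT : T ∈ extc T0 C) {c : Fin n} (h0 : Fh T0 c) (hc : c ∉ C) :
    Fh T c := by
  obtain ⟨_, _, h3⟩ := mem_extc.mp hT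
  intro e he hec
  by_cases he0 : e ∈ T0
  · exact h0 e he0 hec
  · refine hc ?_
    rw [← h3]
    exact mem_image.mpr ⟨e, mem_sdiff.mpr ⟨he, he0⟩, hec⟩

theorem fp_extr {T0 T : Finset (Fin m × Fin n)} {A : Finset (Fin m)} (hT : T ∈ extr T0 A) {a : Fin m} (h0 : Fp T0 a) (ha : a ∉ A) :
    Fp T a := by
  obtain ⟨_, _, h3⟩ := mem_extr.mp hT
  intro e he hec
  by_cases he0 : e ∈ T0
  · exact h0 e he0 hec
  · refine ha ?_
    rw [← h3]
    exact mem_image.mpr ⟨e, mem_sdiff.mpr ⟨he, he0⟩, hec⟩

/-- V1 for holes. -/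
theorem V1c (v : VOps p m n) {T0 : Finset (Fin m × Fin n)} (h0 : IsM T0) (C : Finset (Fin n)) (hC : ∀ c ∈ C, Fh T0 c) :
    (v.J ^ C.card) (ev p m n T0) = ∑ T ∈ extc T0 C, ev p m n T := by
  classical
  induction C using Finset.induction_on with
  | empty =>
    have h : extc T0 ∅ = {T0} := by
      ext T
      rw [mem_extc, mem_singleton]
      constructor
      · rintro ⟨h1, _, h3⟩
        rw [image_eq_empty, sdiff_eq_empty_iff_subset] at h3
        exact Subset.antisymm h3 h1
      · rintro rfl
        exact ⟨Subset.refl _, h0, by simp⟩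
    rw [h, sum_singleton, card_empty, pow_zero, Module.End.one_apply]
  | insert c C hc ih =>
    have hc0 : Fh T0 c := hC c (mem_insert_self c C)
    rw [card_insert_of_notMem hc, pow_succ', Module.End.mul_apply, ih fun d hd => hC d (mem_insert_of_mem hd), map_sum]
    have h1 : ∀ T ∈ extc T0 C, v.J (ev p m n T) = ∑ i : Fin m, ev p m n (insert (i, c) T) :=
      fun T hT => v.Jcol T c (fh_extc hT hc0 hc)
    rw [sum_congr rfl h1, ← sum_product']
    have h2 : ∑ x ∈ extc T0 C ×ˢ (univ : Finset (Fin m)), ev p m n (insert (x.2, c) x.1) =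
        ∑ x ∈ (extc T0 C ×ˢ (univ : Finset (Fin m))).filter (fun x => IsM (insert (x.2, c) x.1)), ev p m n (insert (x.2, c) x.1) := by
      rw [sum_filter]
      refine sum_congr rfl fun x _ => ?_
      split_ifs with h
      · rfl
      · exact v.evnot _ h
    rw [h2]
    refine sum_nbij (fun x => insert (x.2, c) x.1) ?_ ?_ ?_ (fun _ _ => rfl)
    · rintro ⟨T, i⟩ hx
      rw [mem_filter, mem_product] at hx
      obtain ⟨⟨hT, _⟩, hM⟩ := hx
      obtain ⟨k1, _, k3⟩ := mem_extc.mp hT
      refine mem_extc.mpr ⟨k1.trans (subset_insert _ _), hM, ?_⟩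
      have hn : (i, c) ∉ T0 := fun h => hc0 _ h rfl
      rw [insert_sdiff_of_notMem _ hn, image_insert, k3]
    · rintro ⟨T, i⟩ hx ⟨T', i'⟩ hx' hxx
      rw [mem_coe, mem_filter, mem_product] at hx hx'
      obtain ⟨⟨hT, _⟩, hM⟩ := hx
      obtain ⟨⟨hT', _⟩, hM'⟩ := hx'
      replace hxx : insert (i, c) T = insert (i', c) T' := hxx
      have e1 : (i, c) ∈ insert (i, c) T := mem_insert_self _ _
      have e2 : (i', c) ∈ insert (i, c) T := by rw [hxx]; exact mem_insert_self _ _
      have e3 : (i, c) = (i', c) := hM _ e1 _ e2 (Or.inr rfl)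
      have hi : i = i' := congrArg Prod.fst e3
      subst hi
      have n1 : (i, c) ∉ T := fun h => fh_extc hT hc0 hc _ h rfl
      have n2 : (i, c) ∉ T' := fun h => fh_extc hT' hc0 hc _ h rfl
      have e4 : T = T' := by
        rw [← erase_insert n1, hxx, erase_insert n2]
      rw [e4]
    · intro T hT
      obtain ⟨k1, k2, k3⟩ := mem_extc.mp hT
      have hcT : c ∈ (T \ T0).image Prod.snd := by rw [k3]; exact mem_insert_self c C
      obtain ⟨⟨i, c'⟩, he, hec⟩ := mem_image.mp hcT
      replace hec : c' = c := hec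
      subst hec
      obtain ⟨he1, he2⟩ := mem_sdiff.mp he
      refine ⟨(T.erase (i, c'), i), ?_, insert_erase he1⟩
      rw [mem_coe, mem_filter, mem_product]
      refine ⟨⟨mem_extc.mpr ⟨?_, isM_mono k2 (erase_subset _ _), ?_⟩, mem_univ _⟩, ?_⟩
      · intro e h
        refine mem_erase.mpr ⟨?_, k1 h⟩
        rintro rfl
        exact he2 h
      · ext d
        rw [mem_image]
        constructor
        · rintro ⟨e, h1, rfl⟩
          obtain ⟨h2, h3⟩ := mem_sdiff.mp h1
          obtain ⟨h4, h5⟩ := mem_erase.mp h2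
          have h6 : e.2 ∈ insert c' C := by
            rw [← k3]
            exact mem_image.mpr ⟨e, mem_sdiff.mpr ⟨h5, h3⟩, rfl⟩
          rcases mem_insert.mp h6 with h7 | h7
          · exact absurd (k2 e h5 (i, c') he1 (Or.inr h7)) h4
          · exact h7
        · intro hd
          have h6 : d ∈ (T \ T0).image Prod.snd := by rw [k3]; exact mem_insert_of_mem hd
          obtain ⟨e, h1, rfl⟩ := mem_image.mp h6
          obtain ⟨h2, h3⟩ := mem_sdiff.mp h1
          refine ⟨e, mem_sdiff.mpr ⟨mem_erase.mpr ⟨?_, h2⟩, h3⟩, rfl⟩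
          rintro rfl
          exact hc hd
      · show IsM (insert (i, c') (T.erase (i, c')))
        rw [insert_erase he1]
        exact k2

/-- V1 for pigeons. -/
theorem V1r (v : VOps p m n) {T0 : Finset (Fin m × Fin n)} (h0 : IsM T0) (A : Finset (Fin m)) (hA : ∀ a ∈ A, Fp T0 a) :
    (v.J ^ A.card) (ev p m n T0) = ∑ T ∈ extr T0 A, ev p m n T := by
  classical
  induction A using Finset.induction_on with
  | empty =>
    have h : extr T0 ∅ = {T0} := by
      ext T
      rw [mem_extr, mem_singleton]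
      constructor
      · rintro ⟨h1, _, h3⟩
        rw [image_eq_empty, sdiff_eq_empty_iff_subset] at h3
        exact Subset.antisymm h3 h1
      · rintro rfl
        exact ⟨Subset.refl _, h0, by simp⟩
    rw [h, sum_singleton, card_empty, pow_zero, Module.End.one_apply]
  | insert a A ha ih =>
    have ha0 : Fp T0 a := hA a (mem_insert_self a A)
    rw [card_insert_of_notMem ha, pow_succ', Module.End.mul_apply, ih fun d hd => hA d (mem_insert_of_mem hd), map_sum]
    have h1 : ∀ T ∈ extr T0 A, v.J (ev p m n T) = ∑ j : Fin n, ev p m n (insert (a, j) T) :=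
      fun T hT => v.Jrow T a (fp_extr hT ha0 ha)
    rw [sum_congr rfl h1, ← sum_product']
    have h2 : ∑ x ∈ extr T0 A ×ˢ (univ : Finset (Fin n)), ev p m n (insert (a, x.2) x.1) =
        ∑ x ∈ (extr T0 A ×ˢ (univ : Finset (Fin n))).filter (fun x => IsM (insert (a, x.2) x.1)), ev p m n (insert (a, x.2) x.1) := by
      rw [sum_filter]
      refine sum_congr rfl fun x _ => ?_
      split_ifs with h
      · rfl
      · exact v.evnot _ h
    rw [h2]
    refine sum_nbij (fun x => insert (a, x.2) x.1) ?_ ?_ ?_ (fun _ _ => rfl)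
    · rintro ⟨T, j⟩ hx
      rw [mem_filter, mem_product] at hx
      obtain ⟨⟨hT, _⟩, hM⟩ := hx
      obtain ⟨k1, _, k3⟩ := mem_extr.mp hT
      refine mem_extr.mpr ⟨k1.trans (subset_insert _ _), hM, ?_⟩
      have hn : (a, j) ∉ T0 := fun h => ha0 _ h rfl
      rw [insert_sdiff_of_notMem _ hn, image_insert, k3]
    · rintro ⟨T, j⟩ hx ⟨T', j'⟩ hx' hxx
      rw [mem_coe, mem_filter, mem_product] at hx hx'
      obtain ⟨⟨hT, _⟩, hM⟩ := hx
      obtain ⟨⟨hT', _⟩, hM'⟩ := hx'
      replace hxx : insert (a, j) T = insert (a, j') T' := hxx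
      have e1 : (a, j) ∈ insert (a, j) T := mem_insert_self _ _
      have e2 : (a, j') ∈ insert (a, j) T := by rw [hxx]; exact mem_insert_self _ _
      have e3 : (a, j) = (a, j') := hM _ e1 _ e2 (Or.inl rfl)
      have hj : j = j' := congrArg Prod.snd e3
      subst hj
      have n1 : (a, j) ∉ T := fun h => fp_extr hT ha0 ha _ h rfl
      have n2 : (a, j) ∉ T' := fun h => fp_extr hT' ha0 ha _ h rfl
      have e4 : T = T' := by
        rw [← erase_insert n1, hxx, erase_insert n2]
      rw [e4]
    · intro T hT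
      obtain ⟨k1, k2, k3⟩ := mem_extr.mp hT
      have haT : a ∈ (T \ T0).image Prod.fst := by rw [k3]; exact mem_insert_self a A
      obtain ⟨⟨a', j⟩, he, hec⟩ := mem_image.mp haT
      replace hec : a' = a := hec
      subst hec
      obtain ⟨he1, he2⟩ := mem_sdiff.mp he
      refine ⟨(T.erase (a', j), j), ?_, insert_erase he1⟩
      rw [mem_coe, mem_filter, mem_product]
      refine ⟨⟨mem_extr.mpr ⟨?_, isM_mono k2 (erase_subset _ _), ?_⟩, mem_univ _⟩, ?_⟩
      · intro e h
        refine mem_erase.mpr ⟨?_, k1 h⟩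
        rintro rfl
        exact he2 h
      · ext d
        rw [mem_image]
        constructor
        · rintro ⟨e, h1, rfl⟩
          obtain ⟨h2, h3⟩ := mem_sdiff.mp h1
          obtain ⟨h4, h5⟩ := mem_erase.mp h2
          have h6 : e.1 ∈ insert a' A := by
            rw [← k3]
            exact mem_image.mpr ⟨e, mem_sdiff.mpr ⟨h5, h3⟩, rfl⟩
          rcases mem_insert.mp h6 with h7 | h7
          · exact absurd (k2 e h5 (a', j) he1 (Or.inl h7)) h4
          · exact h7
        · intro hd
          have h6 : d ∈ (T \ T0).image Prod.fst := by rw [k3]; exact mem_insert_of_mem hd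
          obtain ⟨e, h1, rfl⟩ := mem_image.mp h6
          obtain ⟨h2, h3⟩ := mem_sdiff.mp h1
          refine ⟨e, mem_sdiff.mpr ⟨mem_erase.mpr ⟨?_, h2⟩, h3⟩, rfl⟩
          rintro rfl
          exact ha hd
      · show IsM (insert (a', j) (T.erase (a', j)))
        rw [insert_erase he1]
        exact k2

/-! ### V2 -/

open Classical in
/-- The free holes. -/
noncomputable def freeH (T : Finset (Fin m × Fin n)) : Finset (Fin n) := univ.filter fun j => Fh T j

open Classical in
/-- The free pigeons. -/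
noncomputable def freeP (T : Finset (Fin m × Fin n)) : Finset (Fin m) := univ.filter fun i => Fp T i

theorem mem_freeH {T : Finset (Fin m × Fin n)} {j : Fin n} : j ∈ freeH T ↔ Fh T j := by
  classical
  simp only [freeH, mem_filter, mem_univ, true_and]

theorem mem_freeP {T : Finset (Fin m × Fin n)} {i : Fin m} : i ∈ freeP T ↔ Fp T i := by
  classical
  simp only [freeP, mem_filter, mem_univ, true_and]

theorem card_freeH {T : Finset (Fin m × Fin n)} (h : IsM T) : (freeH T).card + T.card = n := by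
  classical
  have h1 : (T.image Prod.snd).card = T.card := card_image_of_injOn fun e he e' he' h' => h e he e' he' (Or.inr h')
  have h2 : freeH T = (T.image Prod.snd)ᶜ := by
    ext j
    rw [mem_freeH, mem_compl, mem_image]
    constructor
    · rintro h3 ⟨e, he, rfl⟩
      exact h3 e he rfl
    · intro h3 e he h4
      exact h3 ⟨e, he, h4⟩
  have h3 := card_compl_add_card (T.image Prod.snd)
  rw [Fintype.card_fin] at h3
  rw [h2]
  omega

theorem card_freeP {T : Finset (Fin m × Fin n)} (h : IsM T) : (freeP T).card + T.card = m := by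
  classical
  have h1 : (T.image Prod.fst).card = T.card := card_image_of_injOn fun e he e' he' h' => h e he e' he' (Or.inl h')
  have h2 : freeP T = (T.image Prod.fst)ᶜ := by
    ext j
    rw [mem_freeP, mem_compl, mem_image]
    constructor
    · rintro h3 ⟨e, he, rfl⟩
      exact h3 e he rfl
    · intro h3 e he h4
      exact h3 ⟨e, he, h4⟩
  have h3 := card_compl_add_card (T.image Prod.fst)
  rw [Fintype.card_fin] at h3
  rw [h2]
  omega

open Classical in
/-- The matchings containing `T` with `k` further pairs. -/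
noncomputable def extk (T : Finset (Fin m × Fin n)) (k : ℕ) : Finset (Finset (Fin m × Fin n)) :=
  univ.filter fun U => T ⊆ U ∧ IsM U ∧ (U \ T).card = k

theorem mem_extk {T U : Finset (Fin m × Fin n)} {k : ℕ} : U ∈ extk T k ↔ T ⊆ U ∧ IsM U ∧ (U \ T).card = k := by
  classical
  simp only [extk, mem_filter, mem_univ, true_and]

theorem sum_extk_c (v : VOps p m n) {T : Finset (Fin m × Fin n)} (hT : IsM T) (k : ℕ) :
    ∑ U ∈ extk T k, ev p m n U = (freeH T).card.choose k • (v.J ^ k) (ev p m n T) := by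
  classical
  have hmaps : ∀ U ∈ extk T k, (U \ T).image Prod.snd ∈ (freeH T).powersetCard k := by
    intro U hU
    obtain ⟨h1, h2, h3⟩ := mem_extk.mp hU
    rw [mem_powersetCard]
    refine ⟨?_, ?_⟩
    · intro j hj
      obtain ⟨e, he, rfl⟩ := mem_image.mp hj
      obtain ⟨he1, he2⟩ := mem_sdiff.mp he
      rw [mem_freeH]
      intro e' he' h4
      exact he2 (h2 e' (h1 he') e he1 (Or.inr h4) ▸ he')
    · rw [card_image_of_injOn fun e he e' he' h' => ?_, h3]
      exact h2 e (mem_sdiff.mp he).1 e' (mem_sdiff.mp he').1 (Or.inr h')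
  rw [← sum_fiberwise_of_maps_to hmaps]
  have hC : ∀ C ∈ (freeH T).powersetCard k, ∑ U ∈ (extk T k).filter (fun U => (U \ T).image Prod.snd = C), ev p m n U =
      (v.J ^ k) (ev p m n T) := by
    intro C hC
    obtain ⟨hC1, hC2⟩ := mem_powersetCard.mp hC
    rw [← hC2, V1c v hT C fun c hc => mem_freeH.mp (hC1 hc)]
    refine sum_congr ?_ fun _ _ => rfl
    ext U
    rw [mem_filter, mem_extk, mem_extc]
    constructor
    · rintro ⟨⟨h1, h2, _⟩, h4⟩
      exact ⟨h1, h2, h4⟩
    · rintro ⟨h1, h2, h4⟩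
      refine ⟨⟨h1, h2, ?_⟩, h4⟩
      rw [← h4, card_image_of_injOn fun e he e' he' h' => ?_]
      exact h2 e (mem_sdiff.mp he).1 e' (mem_sdiff.mp he').1 (Or.inr h')
  rw [sum_congr rfl hC, sum_const, card_powersetCard]

theorem sum_extk_r (v : VOps p m n) {T : Finset (Fin m × Fin n)} (hT : IsM T) (k : ℕ) :
    ∑ U ∈ extk T k, ev p m n U = (freeP T).card.choose k • (v.J ^ k) (ev p m n T) := by
  classical
  have hmaps : ∀ U ∈ extk T k, (U \ T).image Prod.fst ∈ (freeP T).powersetCard k := by
    intro U hU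
    obtain ⟨h1, h2, h3⟩ := mem_extk.mp hU
    rw [mem_powersetCard]
    refine ⟨?_, ?_⟩
    · intro j hj
      obtain ⟨e, he, rfl⟩ := mem_image.mp hj
      obtain ⟨he1, he2⟩ := mem_sdiff.mp he
      rw [mem_freeP]
      intro e' he' h4
      exact he2 (h2 e' (h1 he') e he1 (Or.inl h4) ▸ he')
    · rw [card_image_of_injOn fun e he e' he' h' => ?_, h3]
      exact h2 e (mem_sdiff.mp he).1 e' (mem_sdiff.mp he').1 (Or.inl h')
  rw [← sum_fiberwise_of_maps_to hmaps]
  have hC : ∀ C ∈ (freeP T).powersetCard k, ∑ U ∈ (extk T k).filter (fun U => (U \ T).image Prod.fst = C), ev p m n U =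
      (v.J ^ k) (ev p m n T) := by
    intro C hC
    obtain ⟨hC1, hC2⟩ := mem_powersetCard.mp hC
    rw [← hC2, V1r v hT C fun c hc => mem_freeP.mp (hC1 hc)]
    refine sum_congr ?_ fun _ _ => rfl
    ext U
    rw [mem_filter, mem_extk, mem_extr]
    constructor
    · rintro ⟨⟨h1, h2, _⟩, h4⟩
      exact ⟨h1, h2, h4⟩
    · rintro ⟨h1, h2, h4⟩
      refine ⟨⟨h1, h2, ?_⟩, h4⟩
      rw [← h4, card_image_of_injOn fun e he e' he' h' => ?_]
      exact h2 e (mem_sdiff.mp he).1 e' (mem_sdiff.mp he').1 (Or.inl h')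
  rw [sum_congr rfl hC, sum_const, card_powersetCard]

theorem choose_add_pow (p : ℕ) (hp : p.Prime) (l ν : ℕ) :
    (((ν + p ^ l).choose (p ^ l) : ℕ) : ZMod p) = ((ν.choose (p ^ l) : ℕ) : ZMod p) + 1 := by
  rw [Nat.add_choose_eq, Nat.cast_sum]
  have hpos : 0 < p ^ l := pow_pos hp.pos l
  have h : ∀ ij ∈ antidiagonal (p ^ l), ij ≠ (p ^ l, 0) → ij ≠ (0, p ^ l) → ((ν.choose ij.1 * (p ^ l).choose ij.2 : ℕ) : ZMod p) = 0 := by
    rintro ⟨i, j⟩ hij h1 h2
    rw [HasAntidiagonal.mem_antidiagonal] at hij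
    replace hij : i + j = p ^ l := hij
    have hj0 : j ≠ 0 := by
      rintro rfl
      exact h1 (by rw [← hij]; rfl)
    have hj1 : j ≠ p ^ l := by
      rintro rfl
      exact h2 (by rw [show i = 0 by omega])
    have hd : p ∣ (p ^ l).choose j := hp.dvd_choose_pow hj0 hj1
    rw [Nat.cast_mul, (ZMod.natCast_eq_zero_iff _ _).mpr hd, mul_zero]
  rw [← Finset.sum_subset (s₁ := {(p ^ l, 0), (0, p ^ l)})]
  · rw [sum_pair]
    · simp
    · intro h'
      have := congrArg Prod.snd h'
      simp only at this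
      omega
  · intro x hx
    rw [mem_insert, mem_singleton] at hx
    rw [HasAntidiagonal.mem_antidiagonal]
    rcases hx with rfl | rfl <;> simp
  · intro x hx hx'
    rw [mem_insert, mem_singleton, not_or] at hx'
    exact h x hx hx'.1 hx'.2

/-- V2. -/
theorem vnil (p l n : ℕ) [Fact p.Prime] (v : VOps p (n + p ^ l) n) : VNil p l n v := by
  refine ⟨fun D x hx => ?_⟩
  unfold Md at hx
  induction hx using Submodule.span_induction with
  | mem x hx =>
    obtain ⟨T, _, rfl⟩ := hx
    by_cases hT : IsM T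
    · have h1 := sum_extk_c v hT (p ^ l)
      have h2 := sum_extk_r v hT (p ^ l)
      have h3 := card_freeH hT
      have h4 := card_freeP hT
      have h5 : (freeP T).card = (freeH T).card + p ^ l := by omega
      rw [h1, h5, ← Nat.cast_smul_eq_nsmul (ZMod p), ← Nat.cast_smul_eq_nsmul (ZMod p), choose_add_pow p Fact.out l, add_smul,
        one_smul] at h2
      exact (left_eq_add.mp h2)
    · rw [v.evnot T hT, map_zero]
  | zero => rw [map_zero]
  | add x y _ _ hx hy => rw [map_add, hx, hy, add_zero]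
  | smul c x _ hx => rw [map_smul, hx, smul_zero]

end PPh
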